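import Pool.Agent.V8H55.HW.Conv
import Pool.Agent.V8H55.AP.Full

/-!
# The weights for which the Hilbert transform is bounded on functions of mean zero

`U` is admissible if and only if `U = W`, or `U = |x - a|^p W` for some `a`, or
`U = (1 + |x|)^p W`, where `W` is in the Muckenhoupt class `A_p`.
-/

set_option autoImplicit false

open MeasureTheory

namespace Pool.Agent.Results.MP_945c9c_an.AdmissibleWeights

open Pool.Agent.V8H55.HW

lemma ne_zero_div {U φ : ℝ → ℝ} (hU : ¬ U =ᵐ[volume] 0) (hφ : ∀ᵐ x, φ x ≠ 0) :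
    ¬ (fun x => U x / φ x) =ᵐ[volume] 0 := by
  intro h
  apply hU
  filter_upwards [h, hφ] with x hx hx2
  simp only [Pi.zero_apply] at hx ⊢
  rcases div_eq_zero_iff.mp hx with h | h
  · exact h
  · exact absurd h hx2

/-- Let `1 < p` and let `U` be a weight. Then `∫ |Hf|^p U ≤ C ∫ |f|^p U` holds for all integrable
`f` of mean zero, with some constant `C`, if and only if one of the weights `U`, `U / |x - a|^p`
(for some real `a`), `U / (1 + |x|)^p` is in `A_p`. -/
theorem result (p : ℝ) (hp : 1 < p) (U : ℝ → ℝ) (hU : IsWeight U) :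
    Admissible p U ↔
      IsAp p U ∨
      (∃ a : ℝ, IsAp p (fun x => U x / |x - a| ^ p)) ∨
      IsAp p (fun x => U x / (1 + |x|) ^ p) := by
  constructor
  · intro h
    have hone : ∀ x : ℝ, 0 < (1 + |x|) ^ p := fun x =>
      Real.rpow_pos_of_pos (by linarith [abs_nonneg x]) p
    rcases (main_iff hp hU).mp h with h1 | ⟨a, h1⟩ | h1
    · exact Or.inl (isAp_of_bounded hp hU.meas hU.nonneg hU.ne_zero h1)
    · refine Or.inr (Or.inl ⟨a, isAp_of_bounded hp ?_ ?_ ?_ h1⟩)
      · exact hU.meas.div (((measurable_id.sub_const a).abs).pow_const p)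
      · exact fun x => div_nonneg (hU.nonneg x) (Real.rpow_nonneg (abs_nonneg _) _)
      · refine ne_zero_div hU.ne_zero ?_
        have hne : ∀ᵐ x : ℝ, x ≠ a := by simp [ae_iff, measure_singleton]
        filter_upwards [hne] with x hx
        exact (Real.rpow_pos_of_pos (abs_pos.mpr (sub_ne_zero.mpr hx)) p).ne'
    · refine Or.inr (Or.inr (isAp_of_bounded hp ?_ ?_ ?_ h1))
      · exact hU.meas.div ((measurable_id.abs.const_add 1).pow_const p)
      · exact fun x => div_nonneg (hU.nonneg x) (hone x).le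
      · exact ne_zero_div hU.ne_zero (Filter.Eventually.of_forall fun x => (hone x).ne')
  · intro h
    rw [main_iff hp hU]
    rcases h with h1 | ⟨a, h1⟩ | h1
    · exact Or.inl (Pool.Agent.V8H55.AP.hmw_full p U hp h1)
    · exact Or.inr (Or.inl ⟨a, Pool.Agent.V8H55.AP.hmw_full p _ hp h1⟩)
    · exact Or.inr (Or.inr (Pool.Agent.V8H55.AP.hmw_full p _ hp h1))

end Pool.Agent.Results.MP_945c9c_an.AdmissibleWeights
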